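import Pool.Agent.Y84.PG.F
import Pool.Agent.H26R2.Bass.Main

set_option autoImplicit false
set_option linter.unusedSectionVars false

/-! The Bass trace conjecture over domains of characteristic zero. -/

namespace Pool.Agent.Y84.PG

open Pool.Agent.Y84.PT
open Pool.Agent.H26R2.Bass (tau tau_eq ind tf_zero_of_finite tf_zero_of_good exists_local Good)
open Pool.Agent.H23R2.Cyc (tf)

universe u v w

section

variable {G : Type u} [Group G] {R : Type v} [CommRing R] {n : ℕ}

theorem tau_eq_tr (A : Matrix (Fin n) (Fin n) (MonoidAlgebra R G)) (g : G) :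
    tau A g = tr (cls g) A := by
  unfold tau
  rw [tr_apply]
  exact Finset.sum_congr rfl (fun i _ => (T_cls_eq g (A i i)).symm)

variable [IsDomain R] [CharZero R]

theorem tau_zero_of_locInf (A : Matrix (Fin n) (Fin n) (MonoidAlgebra R G)) (hA : A * A = A)
    {g : G} (hg : LocInf g) : tau A g = 0 := by
  rw [tau_eq_tr]
  exact tr_zero_domain hA hg

/-- effective version -/
theorem tau_zero_of_integral {K : Type v} [Field K] [CharZero K]
    (A : Matrix (Fin n) (Fin n) (MonoidAlgebra K G)) (hA : A * A = A) {N : ℕ}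
    (hN : N ≠ 0) (hint : ∀ i j g, IsIntegral ℤ ((N : K) * (A i j).coeff g))
    {Q : Type w} [Group Q] [Finite Q] (π : G →* Q) {g : G}
    (hc : π g ^ (N ^ 2) ≠ 1) : tau A g = 0 := by
  rw [tau_eq_tr]
  exact tr_zero_of_integral hA hN hint π hc

/-- elements of finite order -/
theorem tau_zero_of_finite (A : Matrix (Fin n) (Fin n) (MonoidAlgebra R G)) (hA : A * A = A)
    {g : G} (hfin : IsOfFinOrder g) (hg : ¬ IsUnit ((orderOf g : ℕ) : R)) : tau A g = 0 := by
  rw [tau_eq]
  exact tf_zero_of_finite A hA g (orderOf_pos_iff.2 hfin).ne' hg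

/-- groups locally embeddable into finite groups -/
theorem bass_lef (hG : LEF G) (A : Matrix (Fin n) (Fin n) (MonoidAlgebra R G)) (hA : A * A = A)
    (g : G) (hg : ¬ IsUnit ((orderOf g : ℕ) : R)) : tau A g = 0 := by
  by_cases h : IsOfFinOrder g
  · exact tau_zero_of_finite A hA h hg
  · exact tau_zero_of_locInf A hA (locInf_of_lef hG h)

/-- the criterion -/
theorem bass_local
    (hG : ∀ H : Subgroup G, H.FG → ∀ h : H, ¬ IsOfFinOrder h → LocInf h ∨
      ∃ (M : Subgroup H) (_ : M.Normal), Good R (QuotientGroup.mk' M h))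
    (A : Matrix (Fin n) (Fin n) (MonoidAlgebra R G)) (hA : A * A = A)
    (g : G) (hg : ¬ IsUnit ((orderOf g : ℕ) : R)) : tau A g = 0 := by
  by_cases hfin : IsOfFinOrder g
  · exact tau_zero_of_finite A hA hfin hg
  · by_contra hne
    rw [tau_eq] at hne
    obtain ⟨H, hH, B, hB, h, hconj, hne'⟩ := exists_local A hA g hne
    apply hne'
    have hinf : ¬ IsOfFinOrder h := by
      intro hh
      apply hfin
      obtain ⟨c, hc⟩ := isConj_iff.1 hconj
      have h2 : IsOfFinOrder (h : G) := (Submonoid.isOfFinOrder_coe).2 hh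
      rw [← hc]
      exact (MulAut.conj c).toMonoidHom.isOfFinOrder h2
    rcases hG H hH h hinf with h1 | ⟨M, hM, h1⟩
    · rw [← tau_eq]
      exact tau_zero_of_locInf B hB h1
    · exact tf_zero_of_good B hB h (Pool.Agent.H26R2.Bass.good_of_hom (QuotientGroup.mk' M) h h1)

end

end Pool.Agent.Y84.PG
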