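import Pool.Agent.Y84.PT.J

set_option autoImplicit false
set_option linter.unusedSectionVars false

/-! Polynomial families of approximately idempotent matrices over the group ring of an arbitrary
group: constancy of the traces belonging to a set of group elements closed under conjugation. -/

namespace Pool.Agent.Y84.PG

open Polynomial Matrix Pool.Agent.Y84.PT

section Tr

variable {R : Type*} [CommRing R] {G : Type*} [Group G]

open Classical in
/-- the sum of the coefficients at the elements of `S` -/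
noncomputable def T (S : Set G) : MonoidAlgebra R G →+ R :=
  (Finsupp.liftAddHom (fun g => if g ∈ S then AddMonoidHom.id R else 0)).comp
    (MonoidAlgebra.coeffAddEquiv (R := R) (M := G)).toAddMonoidHom

open Classical in
theorem T_apply (S : Set G) (x : MonoidAlgebra R G) :
    T S x = ∑ g ∈ x.coeff.support, if g ∈ S then x.coeff g else 0 := by
  change Finsupp.sum x.coeff (fun g r => (if g ∈ S then AddMonoidHom.id R else 0) r) = _
  unfold Finsupp.sum
  refine Finset.sum_congr rfl (fun g _ => ?_)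
  by_cases h : g ∈ S
  · simp [h]
  · simp [h]

open Classical in
theorem T_single (S : Set G) (g : G) (r : R) :
    T S (MonoidAlgebra.single g r) = if g ∈ S then r else 0 := by
  change Finsupp.sum (Finsupp.single g r) (fun g r => (if g ∈ S then AddMonoidHom.id R else 0) r) = _
  rw [Finsupp.sum_single_index]
  · split_ifs <;> rfl
  · simp

/-- closed under conjugation, in the form of a trace property -/
def Inv (S : Set G) : Prop := ∀ a b : G, a * b ∈ S → b * a ∈ S

theorem T_comm {S : Set G} (hS : Inv S) (x y : MonoidAlgebra R G) : T S (x * y) = T S (y * x) := by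
  classical
  induction x using MonoidAlgebra.induction_linear with
  | zero => simp
  | add x₁ x₂ h₁ h₂ => rw [add_mul, mul_add, map_add, map_add, h₁, h₂]
  | single a r =>
    induction y using MonoidAlgebra.induction_linear with
    | zero => simp
    | add y₁ y₂ h₁ h₂ => rw [mul_add, add_mul, map_add, map_add, h₁, h₂]
    | single b s =>
      rw [MonoidAlgebra.single_mul_single, MonoidAlgebra.single_mul_single, T_single, T_single]
      by_cases h : a * b ∈ S
      · rw [if_pos h, if_pos (hS a b h), mul_comm]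
      · rw [if_neg h, if_neg (fun h' => h (hS b a h'))]

theorem T_map {R' : Type*} [CommRing R'] (S : Set G) (f : R →+ R') (x : MonoidAlgebra R G) :
    T S (MonoidAlgebra.map f x) = f (T S x) := by
  classical
  induction x using MonoidAlgebra.induction_linear with
  | zero => simp [MonoidAlgebra.map_zero]
  | add x₁ x₂ h₁ h₂ => rw [MonoidAlgebra.map_add, map_add, map_add, map_add, h₁, h₂]
  | single a r =>
    rw [MonoidAlgebra.map_single, T_single, T_single]
    split_ifs <;> simp

theorem T_smul (S : Set G) (r : R) (x : MonoidAlgebra R G) : T S (r • x) = r * T S x := by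
  classical
  induction x using MonoidAlgebra.induction_linear with
  | zero => simp
  | add x₁ x₂ h₁ h₂ => rw [smul_add, map_add, map_add, h₁, h₂, mul_add]
  | single a s =>
    rw [MonoidAlgebra.smul_single, T_single, T_single]
    split_ifs <;> simp

variable {ι : Type*} [Fintype ι] [DecidableEq ι]

/-- the trace on matrices -/
noncomputable def tr (S : Set G) : Matrix ι ι (MonoidAlgebra R G) →+ R :=
  (T S).comp (Matrix.traceAddMonoidHom ι (MonoidAlgebra R G))

omit [DecidableEq ι] in
theorem tr_apply (S : Set G) (E : Matrix ι ι (MonoidAlgebra R G)) :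
    tr S E = ∑ i, T S (E i i) := by
  unfold tr
  simp [Matrix.trace, map_sum]

omit [DecidableEq ι] in
theorem tr_comm {S : Set G} (hS : Inv S) (E E' : Matrix ι ι (MonoidAlgebra R G)) :
    tr S (E * E') = tr S (E' * E) := by
  rw [tr_apply, tr_apply]
  simp only [Matrix.mul_apply, map_sum]
  rw [Finset.sum_comm]
  refine Finset.sum_congr rfl (fun i _ => Finset.sum_congr rfl (fun j _ => ?_))
  exact T_comm hS _ _

end Tr

section Deriv

variable {R : Type*} [CommRing R] {G : Type*} [Group G]

/-- coefficientwise derivative -/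
noncomputable def dd : MonoidAlgebra R[X] G → MonoidAlgebra R[X] G :=
  MonoidAlgebra.map (Polynomial.derivative (R := R)).toAddMonoidHom

theorem dd_add (x y : MonoidAlgebra R[X] G) : dd (x + y) = dd x + dd y :=
  MonoidAlgebra.map_add _ _ _

theorem dd_sub (x y : MonoidAlgebra R[X] G) : dd (x - y) = dd x - dd y :=
  MonoidAlgebra.map_sub _ _ _

theorem dd_zero : dd (0 : MonoidAlgebra R[X] G) = 0 := MonoidAlgebra.map_zero _

theorem dd_sum {ι : Type*} (s : Finset ι) (f : ι → MonoidAlgebra R[X] G) :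
    dd (∑ i ∈ s, f i) = ∑ i ∈ s, dd (f i) := MonoidAlgebra.map_sum _ _ _

theorem dd_single (g : G) (f : R[X]) :
    dd (MonoidAlgebra.single g f) = MonoidAlgebra.single g (Polynomial.derivative f) :=
  MonoidAlgebra.map_single _ _ _

theorem dd_coeff (x : MonoidAlgebra R[X] G) (g : G) :
    (dd x).coeff g = Polynomial.derivative (x.coeff g) := rfl

theorem dd_mul (x y : MonoidAlgebra R[X] G) : dd (x * y) = dd x * y + x * dd y := by
  classical
  induction x using MonoidAlgebra.induction_linear with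
  | zero => simp [dd_zero]
  | add x₁ x₂ h₁ h₂ => rw [add_mul, dd_add, dd_add, h₁, h₂]; noncomm_ring
  | single a r =>
    induction y using MonoidAlgebra.induction_linear with
    | zero => simp [dd_zero]
    | add y₁ y₂ h₁ h₂ => rw [mul_add, dd_add, dd_add, h₁, h₂]; noncomm_ring
    | single b s =>
      rw [MonoidAlgebra.single_mul_single, dd_single, dd_single, dd_single,
        MonoidAlgebra.single_mul_single, MonoidAlgebra.single_mul_single, Polynomial.derivative_mul,
        MonoidAlgebra.single_add]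

variable {ι : Type*} [Fintype ι] [DecidableEq ι]

/-- entrywise derivative -/
noncomputable def md (E : Matrix ι ι (MonoidAlgebra R[X] G)) :
    Matrix ι ι (MonoidAlgebra R[X] G) := E.map dd

omit [DecidableEq ι] in
theorem md_mul (E E' : Matrix ι ι (MonoidAlgebra R[X] G)) :
    md (E * E') = md E * E' + E * md E' := by
  ext1 i j
  simp only [md, Matrix.map_apply, Matrix.mul_apply, Matrix.add_apply, dd_sum,
    dd_mul, Finset.sum_add_distrib]

omit [Fintype ι] [DecidableEq ι] in
theorem md_sub (E E' : Matrix ι ι (MonoidAlgebra R[X] G)) : md (E - E') = md E - md E' := by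
  ext1 i j
  simp [md, dd_sub]

omit [DecidableEq ι] in
theorem derivative_tr (S : Set G) (E : Matrix ι ι (MonoidAlgebra R[X] G)) :
    Polynomial.derivative (tr S E) = tr S (md E) := by
  rw [tr_apply, tr_apply, map_sum]
  refine Finset.sum_congr rfl (fun i _ => ?_)
  exact (T_map S (Polynomial.derivative (R := R)).toAddMonoidHom (E i i)).symm

/-- the derivative of the trace in terms of the defect -/
theorem tr_md {S : Set G} (hS : Inv S) (E : Matrix ι ι (MonoidAlgebra R[X] G)) :
    tr S (md E) = tr S (E * md (df E)) + tr S (E * md (df E))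
      - (tr S (df E * md E) + tr S (df E * md E) + tr S (df E * md E) + tr S (df E * md E))
      - tr S (md (df E)) := by
  set D := md E with hD
  set a := df E with ha
  set b := md a with hb
  have h0 : a = E * E - E := rfl
  have h1 : D * E + E * D = D + b := by
    rw [hb, h0, md_sub, md_mul, ← hD]; abel
  have t1 : tr S (D * E) = tr S (E * D) := tr_comm hS _ _
  have h2 : tr S (E * D) + tr S (E * D) = tr S D + tr S b := by
    have := congrArg (tr S) h1
    rw [map_add, map_add, t1] at this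
    exact this
  have h3 : E * D * E + E * E * D = E * D + E * b := by
    have := congrArg (fun Z => E * Z) h1
    simp only [mul_add, ← mul_assoc] at this
    exact this
  have h4 : E * E = a + E := by rw [h0]; abel
  have h5 : tr S (E * D * E) = tr S (E * E * D) := by
    rw [tr_comm hS (E * D) E, mul_assoc]
  have h6 : tr S (E * E * D) = tr S (a * D) + tr S (E * D) := by
    rw [h4, add_mul, map_add]
  have h7 : tr S (E * E * D) + tr S (E * E * D) = tr S (E * D) + tr S (E * b) := by
    have := congrArg (tr S) h3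
    rw [map_add, map_add, h5] at this
    exact this
  rw [h6] at h7
  linear_combination (-1 : R[X]) * h2 + 2 * h7

end Deriv

section Bound

variable {F : Type*} [NormedField F] [IsUltrametricDist F] {G : Type*} [Group G]

/-- all coefficients of all coefficients have norm at most `B` -/
def GBd (x : MonoidAlgebra F[X] G) (B : ℝ) : Prop := ∀ g, Bd (x.coeff g) B

omit [IsUltrametricDist F] in
theorem GBd.mono {x : MonoidAlgebra F[X] G} {A B : ℝ} (h : GBd x A) (hAB : A ≤ B) : GBd x B :=
  fun g => (h g).mono hAB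

omit [IsUltrametricDist F] in
theorem gbd_zero {B : ℝ} (hB : 0 ≤ B) : GBd (0 : MonoidAlgebra F[X] G) B :=
  fun _ => bd_zero hB

theorem GBd.add {x y : MonoidAlgebra F[X] G} {B : ℝ} (hx : GBd x B) (hy : GBd y B) :
    GBd (x + y) B := fun g => (hx g).add (hy g)

theorem GBd.sub {x y : MonoidAlgebra F[X] G} {B : ℝ} (hx : GBd x B) (hy : GBd y B) :
    GBd (x - y) B := fun g => (hx g).sub (hy g)

theorem GBd.sum {ι : Type*} {s : Finset ι} {f : ι → MonoidAlgebra F[X] G} {B : ℝ} (hB : 0 ≤ B)
    (h : ∀ i ∈ s, GBd (f i) B) : GBd (∑ i ∈ s, f i) B := by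
  intro g
  rw [MonoidAlgebra.coeff_sum, Finsupp.finsetSum_apply]
  exact Bd.sum hB (fun i hi => h i hi g)

theorem GBd.mul {x y : MonoidAlgebra F[X] G} {A B : ℝ} (hx : GBd x A) (hy : GBd y B)
    (hA : 0 ≤ A) (hB : 0 ≤ B) : GBd (x * y) (A * B) := by
  classical
  intro g
  rw [MonoidAlgebra.coeff_mul]
  unfold Finsupp.sum
  apply Bd.sum (mul_nonneg hA hB)
  intro a _
  apply Bd.sum (mul_nonneg hA hB)
  intro b _
  change Bd (if a * b = g then x.coeff a * y.coeff b else 0) (A * B)
  split_ifs
  · exact (hx a).mul (hy b)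
  · exact bd_zero (mul_nonneg hA hB)

omit [IsUltrametricDist F] in
theorem gbd_single {g : G} {f : F[X]} {B : ℝ} (hf : Bd f B) :
    GBd (MonoidAlgebra.single g f) B := by
  classical
  intro h
  rw [MonoidAlgebra.coeff_single, Finsupp.single_apply]
  split_ifs
  · exact hf
  · exact bd_zero hf.nonneg

omit [IsUltrametricDist F] in
theorem gbd_one : GBd (1 : MonoidAlgebra F[X] G) 1 := gbd_single bd_one

theorem GBd.smul {x : MonoidAlgebra F[X] G} {f : F[X]} {A B : ℝ} (hf : Bd f A) (hx : GBd x B) :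
    GBd (f • x) (A * B) := by
  intro g
  rw [MonoidAlgebra.coeff_smul_apply, smul_eq_mul]
  exact hf.mul (hx g)

theorem GBd.dd {x : MonoidAlgebra F[X] G} {B : ℝ} (hx : GBd x B) : GBd (dd x) B := by
  intro g
  rw [dd_coeff]
  exact (hx g).derivative

theorem GBd.T {S : Set G} {x : MonoidAlgebra F[X] G} {B : ℝ} (hx : GBd x B) (hB : 0 ≤ B) :
    Bd (T S x) B := by
  classical
  rw [T_apply]
  apply Bd.sum hB
  intro g _
  split_ifs
  · exact hx g
  · exact bd_zero hB

/-- all coefficients of all entries have norm at most `B` -/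
def GMBd {ι : Type*} (E : Matrix ι ι (MonoidAlgebra F[X] G)) (B : ℝ) : Prop :=
  ∀ i j, GBd (E i j) B

variable {ι : Type*} [Fintype ι] [DecidableEq ι]

omit [Fintype ι] [DecidableEq ι] [IsUltrametricDist F] in
theorem GMBd.mono {E : Matrix ι ι (MonoidAlgebra F[X] G)} {A B : ℝ} (h : GMBd E A) (hAB : A ≤ B) :
    GMBd E B := fun i j => (h i j).mono hAB

omit [Fintype ι] [DecidableEq ι] in
theorem GMBd.add {E E' : Matrix ι ι (MonoidAlgebra F[X] G)} {B : ℝ} (hE : GMBd E B)
    (hE' : GMBd E' B) : GMBd (E + E') B := fun i j => (hE i j).add (hE' i j)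

omit [Fintype ι] [DecidableEq ι] in
theorem GMBd.sub {E E' : Matrix ι ι (MonoidAlgebra F[X] G)} {B : ℝ} (hE : GMBd E B)
    (hE' : GMBd E' B) : GMBd (E - E') B := fun i j => (hE i j).sub (hE' i j)

omit [DecidableEq ι] in
theorem GMBd.mul {E E' : Matrix ι ι (MonoidAlgebra F[X] G)} {A B : ℝ} (hE : GMBd E A)
    (hE' : GMBd E' B) (hA : 0 ≤ A) (hB : 0 ≤ B) : GMBd (E * E') (A * B) := by
  intro i j
  rw [Matrix.mul_apply]
  exact GBd.sum (mul_nonneg hA hB) (fun k _ => (hE i k).mul (hE' k j) hA hB)

omit [Fintype ι] [IsUltrametricDist F] in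
theorem gmbd_one : GMBd (1 : Matrix ι ι (MonoidAlgebra F[X] G)) 1 := by
  intro i j
  rw [Matrix.one_apply]
  split_ifs
  · exact gbd_one
  · exact gbd_zero zero_le_one

omit [DecidableEq ι] in
theorem GMBd.tr {S : Set G} {E : Matrix ι ι (MonoidAlgebra F[X] G)} {B : ℝ} (hE : GMBd E B)
    (hB : 0 ≤ B) : Bd (tr S E) B := by
  rw [tr_apply]
  exact Bd.sum hB (fun i _ => (hE i i).T hB)

omit [Fintype ι] [DecidableEq ι] in
theorem GMBd.md {E : Matrix ι ι (MonoidAlgebra F[X] G)} {B : ℝ} (hE : GMBd E B) :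
    GMBd (md E) B := fun i j => (hE i j).dd

end Bound

section Degree

variable {F : Type*} [Field F] {G : Type*} [Group G]
variable {ι : Type*} [Fintype ι] [DecidableEq ι]

/-- all coefficients of all entries have degree at most `d` -/
def GDB (E : Matrix ι ι (MonoidAlgebra F[X] G)) (d : ℕ) : Prop :=
  ∀ i j g, ((E i j).coeff g).natDegree ≤ d

omit [Fintype ι] [DecidableEq ι] in
theorem GDB.mono {E : Matrix ι ι (MonoidAlgebra F[X] G)} {a b : ℕ} (h : GDB E a) (hab : a ≤ b) :
    GDB E b := fun i j g => (h i j g).trans hab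

omit [Fintype ι] [DecidableEq ι] in
theorem GDB.add {E E' : Matrix ι ι (MonoidAlgebra F[X] G)} {d : ℕ} (hE : GDB E d)
    (hE' : GDB E' d) : GDB (E + E') d := fun i j g =>
  (natDegree_add_le _ _).trans (max_le (hE i j g) (hE' i j g))

omit [Fintype ι] [DecidableEq ι] in
theorem GDB.sub {E E' : Matrix ι ι (MonoidAlgebra F[X] G)} {d : ℕ} (hE : GDB E d)
    (hE' : GDB E' d) : GDB (E - E') d := fun i j g =>
  (natDegree_sub_le _ _).trans (max_le (hE i j g) (hE' i j g))

omit [DecidableEq ι] in
theorem GDB.mul {E E' : Matrix ι ι (MonoidAlgebra F[X] G)} {a b : ℕ} (hE : GDB E a)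
    (hE' : GDB E' b) : GDB (E * E') (a + b) := by
  classical
  intro i j g
  rw [Matrix.mul_apply, MonoidAlgebra.coeff_sum, Finsupp.finsetSum_apply]
  apply natDegree_sum_le_of_forall_le
  intro k _
  rw [MonoidAlgebra.coeff_mul]
  unfold Finsupp.sum
  apply natDegree_sum_le_of_forall_le
  intro x _
  apply natDegree_sum_le_of_forall_le
  intro y _
  change (if x * y = g then (E i k).coeff x * (E' k j).coeff y else 0).natDegree ≤ a + b
  split_ifs
  · exact natDegree_mul_le.trans (Nat.add_le_add (hE i k x) (hE' k j y))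
  · simp

omit [Fintype ι] in
theorem gdb_one : GDB (1 : Matrix ι ι (MonoidAlgebra F[X] G)) 0 := by
  classical
  intro i j g
  rw [Matrix.one_apply]
  split_ifs
  · rw [MonoidAlgebra.one_def, MonoidAlgebra.coeff_single, Finsupp.single_apply]
    split_ifs <;> simp
  · simp

theorem GDB.st {E : Matrix ι ι (MonoidAlgebra F[X] G)} {d : ℕ} (hE : GDB E d) :
    GDB (st E) (3 * d) := by
  have h1 : GDB (df E) (d + d) := by
    unfold df
    exact (hE.mul hE).sub (hE.mono (by omega))
  have h2 : GDB (E + E - 1) d := (hE.add hE).sub (gdb_one.mono (by omega))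
  unfold Pool.Agent.Y84.PT.st
  exact (hE.mono (by omega)).sub ((h1.mul h2).mono (by omega))

theorem GDB.iter {E : Matrix ι ι (MonoidAlgebra F[X] G)} {d : ℕ} (hE : GDB E d) (N : ℕ) :
    GDB (Pool.Agent.Y84.PT.st^[N] E) (3 ^ N * d) := by
  induction N with
  | zero => simpa using hE
  | succ N ih =>
    rw [Function.iterate_succ_apply', pow_succ']
    have := ih.st
    refine this.mono ?_
    rw [mul_assoc]

omit [DecidableEq ι] in
theorem exists_GDB (E : Matrix ι ι (MonoidAlgebra F[X] G)) : ∃ d, GDB E d := by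
  classical
  refine ⟨Finset.univ.sup (fun i => Finset.univ.sup (fun j =>
    (E i j).coeff.support.sup (fun g => ((E i j).coeff g).natDegree))), ?_⟩
  intro i j g
  by_cases hg : g ∈ (E i j).coeff.support
  · exact (Finset.le_sup (f := fun g => ((E i j).coeff g).natDegree) hg).trans
      ((Finset.le_sup (f := fun j => (E i j).coeff.support.sup
        (fun g => ((E i j).coeff g).natDegree)) (Finset.mem_univ j)).trans
      (Finset.le_sup (f := fun i => Finset.univ.sup (fun j => (E i j).coeff.support.sup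
        (fun g => ((E i j).coeff g).natDegree))) (Finset.mem_univ i)))
  · rw [Finsupp.notMem_support_iff.1 hg]; simp

omit [DecidableEq ι] in
theorem GDB.tr {S : Set G} {E : Matrix ι ι (MonoidAlgebra F[X] G)} {d : ℕ} (hE : GDB E d) :
    (tr S E).natDegree ≤ d := by
  classical
  rw [tr_apply]
  apply natDegree_sum_le_of_forall_le
  intro i _
  rw [T_apply]
  apply natDegree_sum_le_of_forall_le
  intro g _
  split_ifs
  · exact hE i i g
  · simp

end Degree

section Main

variable {F : Type*} [NormedField F] [IsUltrametricDist F] {G : Type*} [Group G]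
variable {ι : Type*} [Fintype ι] [DecidableEq ι]

theorem step_bd {E : Matrix ι ι (MonoidAlgebra F[X] G)} {P ε : ℝ} (hP : 1 ≤ P) (hε : ε ≤ 1)
    (hE : GMBd E P) (hd : GMBd (df E) ε) (hε0 : 0 ≤ ε) :
    GMBd (st E) P ∧ GMBd (df (st E)) (ε * ε) := by
  have hP0 : 0 ≤ P := zero_le_one.trans hP
  constructor
  · unfold st
    refine hE.sub ?_
    have h1 : GMBd (E + E - 1) P := (hE.add hE).sub (gmbd_one.mono hP)
    refine (hd.mul h1 hε0 hP0).mono ?_
    calc ε * P ≤ 1 * P := mul_le_mul_of_nonneg_right hε hP0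
      _ = P := one_mul P
  · rw [df_st]
    have h1 : GMBd (df E + df E + df E + df E - 1 - 1 - 1) 1 := by
      have h2 : GMBd (df E) 1 := hd.mono hε
      exact ((((((h2.add h2).add h2).add h2).sub gmbd_one).sub gmbd_one).sub gmbd_one)
    have h3 := (hd.mul hd hε0 hε0).mul h1 (mul_nonneg hε0 hε0) zero_le_one
    simpa using h3

theorem iter_bd {E : Matrix ι ι (MonoidAlgebra F[X] G)} {P ε : ℝ} (hP : 1 ≤ P) (hε : ε ≤ 1)
    (hE : GMBd E P) (hd : GMBd (df E) ε) (hε0 : 0 ≤ ε) (N : ℕ) :
    GMBd (st^[N] E) P ∧ GMBd (df (st^[N] E)) (ε ^ 2 ^ N) := by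
  induction N with
  | zero => exact ⟨hE, by simpa using hd⟩
  | succ N ih =>
    rw [Function.iterate_succ_apply']
    have h := step_bd hP (pow_le_one₀ hε0 hε) ih.1 ih.2 (pow_nonneg hε0 _)
    refine ⟨h.1, ?_⟩
    have h2 := h.2
    rw [← pow_add, ← two_mul, ← pow_succ'] at h2
    exact h2

theorem deriv_tr_bd {S : Set G} (hS : Inv S) {E : Matrix ι ι (MonoidAlgebra F[X] G)} {P ε : ℝ}
    (hP : 1 ≤ P) (hE : GMBd E P) (hd : GMBd (df E) ε) (hε0 : 0 ≤ ε) :
    Bd (Polynomial.derivative (tr S E)) (P * ε) := by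
  have hP0 : 0 ≤ P := zero_le_one.trans hP
  have hPe : 0 ≤ P * ε := mul_nonneg hP0 hε0
  rw [derivative_tr, tr_md hS]
  have h1 : Bd (tr S (E * md (df E))) (P * ε) :=
    (hE.mul hd.md hP0 hε0).tr hPe
  have h2 : Bd (tr S (df E * md E)) (P * ε) := by
    have := (hd.mul hE.md hε0 hP0).tr (S := S) (mul_nonneg hε0 hP0)
    rw [mul_comm] at this
    exact this
  have h3 : Bd (tr S (md (df E))) (P * ε) := by
    refine (hd.md.tr hε0).mono ?_
    calc ε = 1 * ε := (one_mul ε).symm
      _ ≤ P * ε := mul_le_mul_of_nonneg_right hP hε0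
  exact ((h1.add h1).sub (((h2.add h2).add h2).add h2)).sub h3

/-- evaluation at a point -/
noncomputable def ev (w : F) :
    Matrix ι ι (MonoidAlgebra F[X] G) →+* Matrix ι ι (MonoidAlgebra F G) :=
  (MonoidAlgebra.mapRingHom G (evalRingHom w)).mapMatrix

theorem tr_ev (S : Set G) (w : F) (E : Matrix ι ι (MonoidAlgebra F[X] G)) :
    tr S (ev w E) = (tr S E).eval w := by
  rw [tr_apply, tr_apply, eval_finsetSum]
  refine Finset.sum_congr rfl (fun i _ => ?_)
  exact T_map S (evalRingHom w : F[X] →+ F) (E i i)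

/-- constancy of the trace -/
theorem trace_eq (hnat : ∀ n : ℕ, n ≠ 0 → (1 : ℝ) / n ≤ ‖(n : F)‖) {S : Set G} (hS : Inv S)
    {E : Matrix ι ι (MonoidAlgebra F[X] G)} {P ε : ℝ} (hP : 1 ≤ P) (hε : ε < 1)
    (hE : GMBd E P) (hd : GMBd (df E) ε) (hε0 : 0 ≤ ε) {u v : F} (hu : ‖u‖ ≤ 1) (hv : ‖v‖ ≤ 1)
    (hEu : ev u E * ev u E = ev u E) (hEv : ev v E * ev v E = ev v E) :
    tr S (ev u E) = tr S (ev v E) := by
  classical
  have hP0 : 0 ≤ P := zero_le_one.trans hP
  obtain ⟨d, hdeg⟩ := exists_GDB E
  have hev : ∀ (w : F), ev w E * ev w E = ev w E → ∀ N : ℕ,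
      (tr S (st^[N] E)).eval w = tr S (ev w E) := by
    intro w hw N
    have h1 : ∀ N : ℕ, ev w (st^[N] E) = ev w E := by
      intro N
      induction N with
      | zero => rfl
      | succ N ih =>
        rw [Function.iterate_succ_apply', map_st, ih, st_of_idem hw]
    rw [← h1 N, tr_ev]
  have key : ∀ N : ℕ, ‖tr S (ev u E) - tr S (ev v E)‖ ≤
      (P * d) * (((2 : ℝ) ^ N) ^ 2 * ε ^ 2 ^ N) := by
    intro N
    rw [← hev u hEu N, ← hev v hEv N]
    obtain ⟨h1, h2⟩ := iter_bd hP hε.le hE hd hε0 N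
    have h3 := deriv_tr_bd hS hP h1 h2 (pow_nonneg hε0 _)
    have h4 := (hdeg.iter N).tr (S := S)
    have hBn : 0 ≤ (P * d) * (((2 : ℝ) ^ N) ^ 2 * ε ^ 2 ^ N) := by positivity
    apply eval_sub_le hBn _ hu hv
    intro i hi
    rcases Nat.lt_or_ge (3 ^ N * d) i with hlt | hle
    · have : (tr S (st^[N] E)).coeff i = 0 := coeff_eq_zero_of_natDegree_lt (h4.trans_lt hlt)
      rw [this, norm_zero]; exact hBn
    · obtain ⟨j, rfl⟩ : ∃ j, i = j + 1 := ⟨i - 1, by omega⟩
      have h5 := h3 j
      rw [coeff_derivative, norm_mul] at h5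
      have h6 := hnat (j + 1) (by omega)
      have hj : (0 : ℝ) < ((j + 1 : ℕ) : ℝ) := by positivity
      have h7 : ‖((j : F) + 1)‖ = ‖(((j + 1 : ℕ) : F))‖ := by push_cast; rfl
      rw [h7] at h5
      have h8 : ‖(tr S (st^[N] E)).coeff (j + 1)‖ * (1 / ((j + 1 : ℕ) : ℝ)) ≤
          P * ε ^ 2 ^ N :=
        (mul_le_mul_of_nonneg_left h6 (norm_nonneg _)).trans h5
      rw [mul_one_div, div_le_iff₀ hj] at h8
      refine h8.trans ?_
      have h9 : (((j + 1 : ℕ)) : ℝ) ≤ ((2 : ℝ) ^ N) ^ 2 * d := by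
        have h10 : (((j + 1 : ℕ)) : ℝ) ≤ (((3 ^ N * d : ℕ)) : ℝ) := by exact_mod_cast hle
        refine h10.trans ?_
        push_cast
        apply mul_le_mul_of_nonneg_right _ (by positivity)
        rw [← pow_mul, mul_comm N 2, pow_mul]
        exact pow_le_pow_left₀ (by norm_num) (by norm_num) N
      calc P * ε ^ 2 ^ N * ((j + 1 : ℕ) : ℝ) ≤ P * ε ^ 2 ^ N * (((2 : ℝ) ^ N) ^ 2 * d) :=
            mul_le_mul_of_nonneg_left h9 (by positivity)
        _ = (P * d) * (((2 : ℝ) ^ N) ^ 2 * ε ^ 2 ^ N) := by ring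
  have hlim : Filter.Tendsto (fun N : ℕ => (P * d) * (((2 : ℝ) ^ N) ^ 2 * ε ^ 2 ^ N))
      Filter.atTop (nhds 0) := by
    have h1 : Filter.Tendsto (fun n : ℕ => (n : ℝ) ^ 2 * ε ^ n) Filter.atTop (nhds 0) :=
      tendsto_pow_const_mul_const_pow_of_abs_lt_one 2 (by rw [abs_of_nonneg hε0]; exact hε)
    have h2 : Filter.Tendsto (fun N : ℕ => 2 ^ N) Filter.atTop Filter.atTop :=
      tendsto_pow_atTop_atTop_of_one_lt (by norm_num)
    have h3 := (h1.comp h2).const_mul (P * d)
    simp only [Function.comp_def, mul_zero] at h3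
    refine h3.congr (fun N => ?_)
    push_cast
    rfl
  have h0 := ge_of_tendsto' hlim key
  have h1 := le_antisymm h0 (norm_nonneg _)
  exact sub_eq_zero.1 (norm_eq_zero.1 h1)

end Main

end Pool.Agent.Y84.PG
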