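import Pool.Agent.Y84.PG.C

set_option autoImplicit false
set_option linter.unusedSectionVars false

/-! Gradings by finite groups, and vanishing of the trace at a conjugacy class. -/

namespace Pool.Agent.Y84.PG

open Matrix Pool.Agent.Y84.PT

section Comp

variable {R : Type*} [CommRing R] {G : Type*} [Group G] {Q : Type*} [Group Q]

open Classical in
/-- the component of degree `q` for the grading by `π` -/
noncomputable def comp (π : G → Q) (q : Q) (x : MonoidAlgebra R G) : MonoidAlgebra R G :=
  MonoidAlgebra.ofCoeff (x.coeff.filter (fun g => π g = q))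

open Classical in
theorem comp_coeff (π : G → Q) (q : Q) (x : MonoidAlgebra R G) (g : G) :
    (comp π q x).coeff g = if π g = q then x.coeff g else 0 := by
  unfold comp
  rw [MonoidAlgebra.coeff_ofCoeff, Finsupp.filter_apply]

theorem comp_zero (π : G → Q) (q : Q) : comp π q (0 : MonoidAlgebra R G) = 0 := by
  classical
  apply MonoidAlgebra.coeff_injective
  ext g
  rw [comp_coeff]
  simp

theorem comp_add (π : G → Q) (q : Q) (x y : MonoidAlgebra R G) :
    comp π q (x + y) = comp π q x + comp π q y := by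
  classical
  apply MonoidAlgebra.coeff_injective
  ext g
  rw [MonoidAlgebra.coeff_add, Finsupp.add_apply, comp_coeff, comp_coeff, comp_coeff,
    MonoidAlgebra.coeff_add, Finsupp.add_apply]
  split_ifs
  · rfl
  · simp

theorem comp_sum (π : G → Q) (q : Q) {ι : Type*} (s : Finset ι) (f : ι → MonoidAlgebra R G) :
    comp π q (∑ i ∈ s, f i) = ∑ i ∈ s, comp π q (f i) := by
  classical
  induction s using Finset.induction_on with
  | empty => simp [comp_zero]
  | insert a s ha ih => rw [Finset.sum_insert ha, Finset.sum_insert ha, comp_add, ih]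

open Classical in
theorem comp_single (π : G → Q) (q : Q) (g : G) (r : R) :
    comp π q (MonoidAlgebra.single g r) = if π g = q then MonoidAlgebra.single g r else 0 := by
  apply MonoidAlgebra.coeff_injective
  ext h
  rw [comp_coeff]
  by_cases hg : π g = q
  · rw [if_pos hg]
    by_cases hh : π h = q
    · rw [if_pos hh]
    · rw [if_neg hh, MonoidAlgebra.coeff_single, Finsupp.single_apply, if_neg]
      rintro rfl
      exact hh hg
  · rw [if_neg hg, MonoidAlgebra.coeff_single, Finsupp.single_apply]
    by_cases hh : π h = q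
    · rw [if_pos hh, if_neg]
      · rfl
      · rintro rfl
        exact hg hh
    · rw [if_neg hh]; rfl

theorem comp_mul [Fintype Q] (π : G →* Q) (q : Q) (x y : MonoidAlgebra R G) :
    comp π q (x * y) = ∑ h : Q, comp π h x * comp π (h⁻¹ * q) y := by
  classical
  induction x using MonoidAlgebra.induction_linear with
  | zero => simp [comp_zero]
  | add x₁ x₂ h₁ h₂ =>
    rw [add_mul, comp_add, h₁, h₂, ← Finset.sum_add_distrib]
    refine Finset.sum_congr rfl (fun h _ => ?_)
    rw [comp_add, add_mul]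
  | single a r =>
    induction y using MonoidAlgebra.induction_linear with
    | zero => simp [comp_zero]
    | add y₁ y₂ h₁ h₂ =>
      rw [mul_add, comp_add, h₁, h₂, ← Finset.sum_add_distrib]
      refine Finset.sum_congr rfl (fun h _ => ?_)
      rw [comp_add, mul_add]
    | single b s =>
      rw [MonoidAlgebra.single_mul_single, comp_single, Finset.sum_eq_single (π a)]
      · rw [comp_single, comp_single, if_pos rfl]
        by_cases h : π (a * b) = q
        · rw [if_pos h, if_pos, MonoidAlgebra.single_mul_single]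
          rw [← h, map_mul]; group
        · rw [if_neg h, if_neg, mul_zero]
          intro h'
          apply h
          rw [map_mul, h']; group
      · intro h _ hne
        rw [comp_single, if_neg (fun h' => hne h'.symm), zero_mul]
      · intro h; exact absurd (Finset.mem_univ _) h

variable {κ : Type*} [Fintype κ] [DecidableEq κ]

theorem CI_comp [Fintype Q] (π : G →* Q) {E : Matrix κ κ (MonoidAlgebra R G)} (hE : E * E = E) :
    CI (fun i j q => comp π q (E i j)) := by
  intro i k g
  have h1 : (E * E) i k = E i k := by rw [hE]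
  rw [Matrix.mul_apply] at h1
  change _ = comp π g (E i k)
  rw [← h1, comp_sum]
  exact Finset.sum_congr rfl (fun j _ => (comp_mul π g _ _).symm)

/-- the conjugacy class -/
def cls (g : G) : Set G := {h | IsConj g h}

theorem cls_inv (g : G) : Inv (cls g) := by
  intro a b h
  refine IsConj.trans h ?_
  exact isConj_iff.2 ⟨b, by group⟩

open Classical in
theorem T_comp_sum [Fintype Q] (π : G →* Q) (g : G) (x : MonoidAlgebra R G) :
    ∑ z : Q, T (cls g) (comp π (z * π g * z⁻¹) x) =
      ((Finset.univ.filter (fun z : Q => z * π g * z⁻¹ = π g)).card : R) * T (cls g) x := by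
  induction x using MonoidAlgebra.induction_linear with
  | zero => simp [comp_zero]
  | add x₁ x₂ h₁ h₂ =>
    simp only [comp_add, map_add, Finset.sum_add_distrib, h₁, h₂, mul_add]
  | single a r =>
    by_cases ha : a ∈ cls g
    · obtain ⟨y, rfl⟩ := isConj_iff.1 ha
      rw [T_single, if_pos ha]
      have h1 : ∀ z : Q, T (cls g) (comp π (z * π g * z⁻¹) (MonoidAlgebra.single (y * g * y⁻¹) r)) =
          if z * π g * z⁻¹ = π y * π g * (π y)⁻¹ then r else 0 := by
        intro z
        rw [comp_single, map_mul, map_mul, map_inv]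
        by_cases h : π y * π g * (π y)⁻¹ = z * π g * z⁻¹
        · rw [if_pos h, if_pos h.symm, T_single, if_pos ha]
        · rw [if_neg h, if_neg (fun h' => h h'.symm), map_zero]
      simp only [h1]
      rw [← Finset.sum_filter, Finset.sum_const, nsmul_eq_mul]
      congr 2
      refine Finset.card_bij (fun z _ => (π y)⁻¹ * z) ?_ ?_ ?_
      · intro z hz
        rw [Finset.mem_filter] at hz ⊢
        refine ⟨Finset.mem_univ _, ?_⟩
        have h2 : (π y)⁻¹ * z * π g * ((π y)⁻¹ * z)⁻¹ = (π y)⁻¹ * (z * π g * z⁻¹) * π y := by group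
        rw [h2, hz.2]; group
      · intro z₁ _ z₂ _ h
        exact mul_left_cancel h
      · intro z hz
        rw [Finset.mem_filter] at hz
        refine ⟨π y * z, ?_, by group⟩
        rw [Finset.mem_filter]
        refine ⟨Finset.mem_univ _, ?_⟩
        have h2 : π y * z * π g * (π y * z)⁻¹ = π y * (z * π g * z⁻¹) * (π y)⁻¹ := by group
        rw [h2, hz.2]
    · rw [T_single, if_neg ha, mul_zero]
      apply Finset.sum_eq_zero
      intro z _
      rw [comp_single]
      split_ifs
      · rw [T_single, if_neg ha]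
      · exact map_zero _

end Comp

section Main

variable {F : Type*} [NormedField F] [IsUltrametricDist F] {G : Type*} [Group G]
variable {κ : Type*} [Fintype κ] [DecidableEq κ]

/-- vanishing of the trace at a class whose image in a finite group has an order divisible by a high
power of `p` -/
theorem tr_cls_zero (hnat : ∀ n : ℕ, n ≠ 0 → (1 : ℝ) / n ≤ ‖(n : F)‖)
    (hroot : ∀ n : ℕ, n ≠ 0 → ∃ ξ : F, IsPrimitiveRoot ξ n)
    {p : ℕ} (hp : p.Prime) (hp1 : ‖(p : F)‖ < 1)
    {E : Matrix κ κ (MonoidAlgebra F G)} (hE : E * E = E) {P : ℝ} (hP : 1 ≤ P)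
    (hEP : ∀ i j g, ‖(E i j).coeff g‖ ≤ P)
    {k : ℕ} (hk : P * P * ‖(p : F)‖ ^ k ≤ 1)
    {Q : Type*} [Group Q] [Finite Q] (π : G →* Q) (g : G) (hkn : p ^ k ∣ orderOf (π g))
    (hpn : p ∣ orderOf (π g)) : tr (cls g) E = 0 := by
  classical
  let _ : Fintype Q := Fintype.ofFinite Q
  have h1 := conj_sum_zero hnat hroot hp hp1 (cls_inv g) (CI_comp π hE) hP
    (fun i j q h => by
      rw [comp_coeff]
      split_ifs
      · exact hEP i j h
      · rw [norm_zero]; exact zero_le_one.trans hP) hk (π g) hkn hpn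
  rw [Finset.sum_comm] at h1
  simp only [T_comp_sum] at h1
  rw [← Finset.mul_sum, ← tr_apply] at h1
  rcases mul_eq_zero.1 h1 with h | h
  · exfalso
    set N := (Finset.univ.filter (fun z : Q => z * π g * z⁻¹ = π g)).card with hN
    have hN0 : N ≠ 0 := by
      rw [hN]
      apply Finset.card_ne_zero_of_mem (a := 1)
      rw [Finset.mem_filter]
      exact ⟨Finset.mem_univ _, by simp⟩
    have h2 := hnat N hN0
    rw [h, norm_zero] at h2
    have h3 : (0 : ℝ) < 1 / N := by positivity
    linarith
  · exact h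

end Main

section Padic

variable {G : Type*} [Group G] {κ : Type*} [Fintype κ] [DecidableEq κ]

theorem padic_tr_zero (p : ℕ) [hp : Fact p.Prime]
    {E : Matrix κ κ (MonoidAlgebra (PadicAlgCl p) G)} (hE : E * E = E) {P : ℝ} (hP : 1 ≤ P)
    (hEP : ∀ i j g, ‖(E i j).coeff g‖ ≤ P)
    {k : ℕ} (hk : P * P * ‖(p : PadicAlgCl p)‖ ^ k ≤ 1)
    {Q : Type*} [Group Q] [Finite Q] (π : G →* Q) (g : G) (hkn : p ^ k ∣ orderOf (π g))
    (hpn : p ∣ orderOf (π g)) : tr (cls g) E = 0 :=
  tr_cls_zero (norm_nat_ge p) (exists_root p) hp.out (norm_p_lt p) hE hP hEP hk π g hkn hpn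

/-- change of rings -/
theorem tr_map {A B : Type*} [CommRing A] [CommRing B] (ψ : A →+* B) (S : Set G)
    (E : Matrix κ κ (MonoidAlgebra A G)) :
    tr S (E.map (MonoidAlgebra.mapRingHom G ψ)) = ψ (tr S E) := by
  rw [tr_apply, tr_apply, map_sum]
  exact Finset.sum_congr rfl (fun i _ => T_map S (ψ : A →+ B) (E i i))

theorem idem_map {A B : Type*} [CommRing A] [CommRing B] (ψ : A →+* B)
    {E : Matrix κ κ (MonoidAlgebra A G)} (hE : E * E = E) :
    E.map (MonoidAlgebra.mapRingHom G ψ) * E.map (MonoidAlgebra.mapRingHom G ψ) =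
      E.map (MonoidAlgebra.mapRingHom G ψ) := by
  rw [← Matrix.map_mul, hE]

/-- lifting to a subring which contains the coefficients -/
theorem exists_lift {A B : Type*} [CommRing A] [CommRing B] (ψ : A →+* B)
    (hψ : Function.Injective ψ) {E : Matrix κ κ (MonoidAlgebra B G)} (hE : E * E = E)
    (h : ∀ i j g, ∃ a, ψ a = (E i j).coeff g) :
    ∃ E' : Matrix κ κ (MonoidAlgebra A G), E' * E' = E' ∧
      E'.map (MonoidAlgebra.mapRingHom G ψ) = E := by
  have h1 : ∀ i j, ∃ x : MonoidAlgebra A G, MonoidAlgebra.mapRingHom G ψ x = E i j := by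
    intro i j
    have h2 : E i j ∈ Set.range (MonoidAlgebra.map (M := G) (ψ : A →+ B)) := by
      rw [MonoidAlgebra.range_map]
      intro g
      exact h i j g
    exact h2
  choose E' hE' using h1
  have hmap : (Matrix.of E').map (MonoidAlgebra.mapRingHom G ψ) = E := by
    ext1 i j
    exact hE' i j
  refine ⟨Matrix.of E', ?_, hmap⟩
  have hinj : Function.Injective (MonoidAlgebra.mapRingHom G ψ) :=
    MonoidAlgebra.map_injective (M := G) (ψ : A →+ B) hψ
  have h2 : (Matrix.of E' * Matrix.of E').map (MonoidAlgebra.mapRingHom G ψ) =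
      (Matrix.of E').map (MonoidAlgebra.mapRingHom G ψ) := by
    rw [Matrix.map_mul, hmap, hE]
  ext1 i j
  exact hinj (congrFun (congrFun h2 i) j)

/-- an arbitrary group: if `N` times the coefficients are integral and the image of `g` in a finite
group has an order not dividing `N ^ 2`, then the trace at the class of `g` vanishes -/
theorem tr_zero_of_integral {K : Type*} [Field K] [CharZero K]
    {E : Matrix κ κ (MonoidAlgebra K G)} (hE : E * E = E) {N : ℕ}
    (hN : N ≠ 0) (hint : ∀ i j g, IsIntegral ℤ ((N : K) * (E i j).coeff g))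
    {Q : Type*} [Group Q] [Finite Q] (π : G →* Q) {g : G}
    (hc : π g ^ (N ^ 2) ≠ 1) : tr (cls g) E = 0 := by
  let _ : Fintype Q := Fintype.ofFinite Q
  obtain ⟨p, hp, hk, hpc⟩ := exists_prime_of_pow_ne hN hc
  have : Fact p.Prime := ⟨hp⟩
  let L : IntermediateField ℚ K := algebraicClosure ℚ K
  have hLalg : Algebra.IsAlgebraic ℚ L := algebraicClosure.isAlgebraic ℚ K
  have hNK : (N : K) ≠ 0 := by exact_mod_cast hN
  have hmem : ∀ i j g, (E i j).coeff g ∈ L := by
    intro i j g
    have h1 : IsAlgebraic ℚ ((N : K) * (E i j).coeff g) :=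
      ((hint i j g).tower_top (A := ℚ)).isAlgebraic
    have h2 : (N : K) * (E i j).coeff g ∈ L := mem_algebraicClosure_iff.2 h1
    have h3 : (E i j).coeff g = (N : K)⁻¹ * ((N : K) * (E i j).coeff g) := by field_simp
    rw [h3]
    exact L.mul_mem (L.inv_mem (natCast_mem L N)) h2
  let ψ : L →ₐ[ℚ] PadicAlgCl p := IsAlgClosed.lift
  have hψi : Function.Injective ψ := ψ.toRingHom.injective
  obtain ⟨E₀, hE₀, hE₀E⟩ := exists_lift (algebraMap L K) (algebraMap L K).injective hE
    (fun i j g => ⟨⟨_, hmem i j g⟩, rfl⟩)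
  have hcoef : ∀ i j g, algebraMap L K ((E₀ i j).coeff g) = (E i j).coeff g := by
    intro i j g
    rw [← hE₀E]
    rfl
  set v := padicValNat p N with hv
  have hNp : ‖(N : PadicAlgCl p)‖ = ((p : ℝ) ^ v)⁻¹ := norm_nat p hN
  have hp0 : (0 : ℝ) < p := by exact_mod_cast hp.pos
  have hP : (1 : ℝ) ≤ (p : ℝ) ^ v := one_le_pow₀ (by exact_mod_cast hp.one_lt.le)
  have hPb : ∀ i j g, ‖((E₀.map (MonoidAlgebra.mapRingHom G ψ.toRingHom)) i j).coeff g‖ ≤
      (p : ℝ) ^ v := by
    intro i j g
    change ‖ψ ((E₀ i j).coeff g)‖ ≤ (p : ℝ) ^ v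
    have h1 : IsIntegral ℤ ((N : L) * (E₀ i j).coeff g) := by
      have h2 : IsIntegral ℤ (algebraMap L K ((N : L) * (E₀ i j).coeff g)) := by
        rw [map_mul, map_natCast, hcoef]; exact hint i j g
      exact (isIntegral_algebraMap_iff (algebraMap L K).injective).1 h2
    have h3 : IsIntegral ℤ (ψ ((N : L) * (E₀ i j).coeff g)) := h1.map (ψ.restrictScalars ℤ)
    have h4 := norm_le_one_of_integral p h3
    rw [map_mul, map_natCast, norm_mul, hNp] at h4
    have h5 : (0 : ℝ) < (p : ℝ) ^ v := by positivity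
    rw [inv_mul_le_iff₀ h5, mul_one] at h4
    exact h4
  have hk2 : (p : ℝ) ^ v * (p : ℝ) ^ v * ‖(p : PadicAlgCl p)‖ ^ (2 * v) ≤ 1 := by
    rw [norm_p_eq, ← pow_add, ← two_mul, ← mul_pow, mul_inv_cancel₀ hp0.ne', one_pow]
  have hz := padic_tr_zero p (idem_map ψ.toRingHom hE₀) hP hPb hk2 π g hk hpc
  rw [tr_map] at hz
  have hz2 : tr (cls g) E₀ = 0 := by
    apply hψi
    rw [map_zero]
    exact hz
  rw [← hE₀E, tr_map, hz2, map_zero]

end Padic

end Pool.Agent.Y84.PG
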