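import Pool.Agent.Y84.PG.D

set_option autoImplicit false
set_option linter.unusedSectionVars false

/-! Elements of locally infinite order in finite groups; the main theorem on partial
augmentations. -/

namespace Pool.Agent.Y84.PG

open Matrix Pool.Agent.Y84.PT

universe u v w

/-- For every finite subset `W` of `G` and every `m ≠ 0` there is a map `f` from `G` to a finite group
with `f (x y) = f x f y` for `x, y ∈ W` and `f(g) ^ m ≠ 1`. -/
def LocInf {G : Type u} [Group G] (g : G) : Prop :=
  ∀ (W : Finset G) (m : ℕ), m ≠ 0 → ∃ (Q : Type u) (_ : Group Q) (_ : Finite Q) (f : G → Q),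
    (∀ x ∈ W, ∀ y ∈ W, f (x * y) = f x * f y) ∧ f g ^ m ≠ 1

section

variable {G : Type u} [Group G]

theorem locInf_of_lef (hG : LEF G) {g : G} (hg : ¬ IsOfFinOrder g) : LocInf g := by
  classical
  intro W m hm
  obtain ⟨Q, i1, i2, f, hf, hmul, hf1, hpow, hne⟩ :=
    exists_good hG (insert 1 (insert g W)) (Finset.mem_insert_self _ _) m
  refine ⟨Q, i1, i2, f, ?_, ?_⟩
  · intro x hx y hy
    exact hmul x (Finset.mem_insert_of_mem (Finset.mem_insert_of_mem hx)) y
      (Finset.mem_insert_of_mem (Finset.mem_insert_of_mem hy))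
  · apply hne g (Finset.mem_insert_of_mem (Finset.mem_insert_self _ _)) m le_rfl
    intro h
    exact hg (isOfFinOrder_iff_pow_eq_one.2 ⟨m, Nat.pos_of_ne_zero hm, h⟩)

theorem locInf_of_quot {g : G}
    (h : ∀ m : ℕ, m ≠ 0 → ∃ N : Subgroup G, N.Normal ∧ N.FiniteIndex ∧ g ^ m ∉ N) : LocInf g := by
  intro W m hm
  obtain ⟨N, h1, h2, h3⟩ := h m hm
  refine ⟨G ⧸ N, inferInstance, Subgroup.finite_quotient_of_finiteIndex, fun x => (x : G ⧸ N),
    fun x _ y _ => rfl, ?_⟩
  intro h4
  apply h3
  rw [← QuotientGroup.eq_one_iff]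
  exact h4

end

section Push

variable {G : Type u} [Group G] {K : Type v} [Field K] [CharZero K]
variable {κ : Type w} [Fintype κ] [DecidableEq κ]

theorem mapDomain_sum' {G' : Type*} [Group G'] {ι : Type*} (f : G → G') (s : Finset ι)
    (x : ι → MonoidAlgebra K G) :
    MonoidAlgebra.mapDomain f (∑ i ∈ s, x i) = ∑ i ∈ s, MonoidAlgebra.mapDomain f (x i) := by
  classical
  induction s using Finset.induction_on with
  | empty => simp [MonoidAlgebra.mapDomain_zero]
  | insert a s ha ih =>
    rw [Finset.sum_insert ha, Finset.sum_insert ha, MonoidAlgebra.mapDomain_add, ih]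

/-- a map multiplicative on the support preserves idempotents -/
theorem push_idem {G' : Type*} [Group G'] {E : Matrix κ κ (MonoidAlgebra K G)} (hE : E * E = E)
    {f : G → G'} (hm : ∀ x ∈ supp E, ∀ y ∈ supp E, f (x * y) = f x * f y) :
    E.map (MonoidAlgebra.mapDomain f) * E.map (MonoidAlgebra.mapDomain f) =
      E.map (MonoidAlgebra.mapDomain f) := by
  ext1 i k
  have h1 : (E * E) i k = E i k := by rw [hE]
  rw [Matrix.mul_apply] at h1
  rw [Matrix.mul_apply]
  simp only [Matrix.map_apply]
  rw [← h1, mapDomain_sum']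
  refine Finset.sum_congr rfl (fun j _ => ?_)
  rw [mapDomain_mul_of f _ _ (fun a ha b hb => hm a (mem_supp ha) b (mem_supp hb))]

theorem T_mapDomain {G' : Type*} [Group G'] (f : G → G') (S : Set G') (x : MonoidAlgebra K G) :
    T S (MonoidAlgebra.mapDomain f x) = T (f ⁻¹' S) x := by
  classical
  induction x using MonoidAlgebra.induction_linear with
  | zero => simp [MonoidAlgebra.mapDomain_zero]
  | add x₁ x₂ h₁ h₂ => rw [MonoidAlgebra.mapDomain_add, map_add, map_add, h₁, h₂]
  | single a r =>
    rw [MonoidAlgebra.mapDomain_single, T_single, T_single]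
    rfl

theorem T_congr {S S' : Set G} {x : MonoidAlgebra K G}
    (h : ∀ g ∈ x.coeff.support, (g ∈ S ↔ g ∈ S')) : T S x = T S' x := by
  classical
  rw [T_apply, T_apply]
  refine Finset.sum_congr rfl (fun g hg => ?_)
  by_cases h1 : g ∈ S
  · rw [if_pos h1, if_pos ((h g hg).1 h1)]
  · rw [if_neg h1, if_neg (fun h2 => h1 ((h g hg).2 h2))]

/-- bounded denominators: the trace vanishes at an element of locally infinite order -/
theorem tr_zero_local_integral {E : Matrix κ κ (MonoidAlgebra K G)} (hE : E * E = E) {N : ℕ}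
    (hN : N ≠ 0) (hint : ∀ i j g, IsIntegral ℤ ((N : K) * (E i j).coeff g)) {g : G}
    (hg : ∀ W : Finset G, ∃ (Q : Type u) (_ : Group Q) (_ : Finite Q)
      (f : G → Q), (∀ x ∈ W, ∀ y ∈ W, f (x * y) = f x * f y) ∧ f g ^ (N ^ 2) ≠ 1) :
    tr (cls g) E = 0 := by
  classical
  have hc : ∀ h : G, ∃ c : G, IsConj g h → c * g * c⁻¹ = h := by
    intro h
    by_cases hh : IsConj g h
    · obtain ⟨c, hc⟩ := isConj_iff.1 hh
      exact ⟨c, fun _ => hc⟩
    · exact ⟨1, fun h' => absurd h' hh⟩
  choose c hc using hc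
  obtain ⟨Q, i1, i2, f, hmul, hne⟩ := hg (insert g (supp E ∪ (supp E).image c))
  have hW1 : ∀ h ∈ supp E, h ∈ insert g (supp E ∪ (supp E).image c) := fun h hh =>
    Finset.mem_insert_of_mem (Finset.mem_union_left _ hh)
  have hW2 : ∀ h ∈ supp E, c h ∈ insert g (supp E ∪ (supp E).image c) := fun h hh =>
    Finset.mem_insert_of_mem (Finset.mem_union_right _ (Finset.mem_image_of_mem _ hh))
  have hW3 : g ∈ insert g (supp E ∪ (supp E).image c) := Finset.mem_insert_self _ _
  let F : G → Q × G := fun h => (f h, h)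
  have hF : Function.Injective F := fun a b hab => (Prod.mk.inj hab).2
  have hidem : E.map (MonoidAlgebra.mapDomain F) * E.map (MonoidAlgebra.mapDomain F) =
      E.map (MonoidAlgebra.mapDomain F) := by
    apply push_idem hE
    intro x hx y hy
    exact Prod.ext (hmul x (hW1 x hx) y (hW1 y hy)) rfl
  have hint' : ∀ i j z, IsIntegral ℤ ((N : K) *
      ((E.map (MonoidAlgebra.mapDomain F)) i j).coeff z) := by
    intro i j z
    change IsIntegral ℤ ((N : K) * (Finsupp.mapDomain F (E i j).coeff) z)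
    by_cases hz : z ∈ Set.range F
    · obtain ⟨h, rfl⟩ := hz
      rw [Finsupp.mapDomain_apply hF]
      exact hint i j h
    · rw [Finsupp.mapDomain_notin_range _ _ hz, mul_zero]
      exact isIntegral_zero
  have h1 := tr_zero_of_integral hidem hN hint' (MonoidHom.fst Q G) (g := (f g, g)) hne
  rw [← h1, tr_apply, tr_apply]
  refine Finset.sum_congr rfl (fun i _ => ?_)
  rw [Matrix.map_apply, T_mapDomain]
  apply T_congr
  intro h hh
  have hsupp : h ∈ supp E := mem_supp hh
  constructor
  · intro h2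
    have h3 := hc h h2
    have h4 : h * c h = c h * g := (mul_inv_eq_iff_eq_mul.1 h3).symm
    have h5 : f h * f (c h) = f (c h) * f g := by
      rw [← hmul h (hW1 h hsupp) (c h) (hW2 h hsupp), h4,
        hmul (c h) (hW2 h hsupp) g hW3]
    change IsConj (f g, g) (f h, h)
    refine isConj_iff.2 ⟨(f (c h), c h), Prod.ext ?_ h3⟩
    change f (c h) * f g * (f (c h))⁻¹ = f h
    rw [← h5]; group
  · intro h2
    obtain ⟨⟨a, b⟩, h3⟩ := isConj_iff.1 h2
    exact isConj_iff.2 ⟨b, congrArg Prod.snd h3⟩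

/-- fields of characteristic zero -/
theorem tr_zero_local {E : Matrix κ κ (MonoidAlgebra K G)} (hE : E * E = E) {g : G}
    (hg : LocInf g) : tr (cls g) E = 0 := by
  classical
  by_contra hx
  set x : K := tr (cls g) E with hxdef
  obtain ⟨U, hU⟩ := exists_coeff_finset E
  obtain ⟨R, hUR, ⟨ψ⟩⟩ := exists_spec (K := K) (AlgebraicClosure ℚ)
    ((insert x⁻¹ U : Finset K) : Set K) (Finset.finite_toSet _)
  have hmem : ∀ i j g, (E i j).coeff g ∈ R := by
    intro i j g
    exact hUR (by exact_mod_cast Finset.mem_insert_of_mem (hU i j g))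
  have hxinv : x⁻¹ ∈ R := hUR (by exact_mod_cast Finset.mem_insert_self _ _)
  have halg : Algebra.IsAlgebraic ℚ (AlgebraicClosure ℚ) := AlgebraicClosure.isAlgebraic ℚ
  obtain ⟨E₀, hE₀, hE₀E⟩ := exists_lift (algebraMap R K) Subtype.val_injective hE
    (fun i j g => ⟨⟨_, hmem i j g⟩, rfl⟩)
  have hE₁ := idem_map ψ hE₀
  set E₁ := E₀.map (MonoidAlgebra.mapRingHom G ψ) with hE₁def
  obtain ⟨U₁, hU₁⟩ := exists_coeff_finset E₁
  obtain ⟨N, hN, hNint⟩ := exists_common_denom (L := AlgebraicClosure ℚ) U₁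
  have h0 : tr (cls g) E₁ = 0 :=
    tr_zero_local_integral hE₁ hN (fun i j h => hNint _ (hU₁ i j h))
      (fun W => hg W (N ^ 2) (pow_ne_zero _ hN))
  rw [hE₁def, tr_map] at h0
  have h1 : algebraMap R K (tr (cls g) E₀) = x := by
    rw [← tr_map, hE₀E]
  have h2 : tr (cls g) E₀ * ⟨x⁻¹, hxinv⟩ = 1 := by
    apply Subtype.val_injective
    change algebraMap R K (tr (cls g) E₀) * x⁻¹ = 1
    rw [h1]
    exact mul_inv_cancel₀ hx
  have h3 := congrArg ψ h2
  rw [map_mul, h0, zero_mul, map_one] at h3
  exact zero_ne_one h3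

end Push

section Domain

variable {G : Type u} [Group G] {R : Type v} [CommRing R] [IsDomain R] [CharZero R]
variable {κ : Type w} [Fintype κ] [DecidableEq κ]

/-- domains of characteristic zero -/
theorem tr_zero_domain {E : Matrix κ κ (MonoidAlgebra R G)} (hE : E * E = E) {g : G}
    (hg : LocInf g) : tr (cls g) E = 0 := by
  have hK : CharZero (FractionRing R) :=
    charZero_of_injective_algebraMap (IsFractionRing.injective R (FractionRing R))
  have h1 := tr_zero_local (idem_map (algebraMap R (FractionRing R)) hE) hg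
  rw [tr_map] at h1
  exact (IsFractionRing.injective R (FractionRing R)) (by rw [h1, map_zero])

omit [IsDomain R] [CharZero R] in
open Classical in
theorem T_cls_eq (g : G) (x : MonoidAlgebra R G) :
    T (cls g) x = ∑ᶠ (h : G) (_ : IsConj h g), x.coeff h := by
  rw [T_apply]
  rw [finsum_congr (fun h => finsum_eq_if (p := IsConj h g) (x := x.coeff h))]
  rw [finsum_eq_sum_of_support_subset (s := x.coeff.support)]
  · refine Finset.sum_congr rfl (fun h _ => ?_)
    by_cases h1 : IsConj h g
    · rw [if_pos h1, if_pos (show h ∈ cls g from h1.symm)]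
    · rw [if_neg h1, if_neg (fun h2 : h ∈ cls g => h1 (IsConj.symm h2))]
  · intro h hh
    rw [Function.mem_support] at hh
    rw [Finset.mem_coe, Finsupp.mem_support_iff]
    intro h0
    apply hh
    rw [h0]
    simp

end Domain

end Pool.Agent.Y84.PG
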